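import Pool.Agent.N206.CG.Stm2

/-!
Project CG: the concrete local data (affine groups over prime fields) and the statements about them.
-/

namespace Pool.Agent.N206.CG

namespace Af

/-- pairs of vectors of length five with coordinate sum zero -/
def EE (R : Type) [CommRing R] : AddSubgroup (Fin 2 → Fin 5 → R) where
  carrier := {v | ∀ k, ∑ i, v k i = 0}
  zero_mem' := by intro k; simp
  add_mem' := by
    intro a b ha hb k
    have h1 := ha k
    have h2 := hb k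
    simp only [Pi.add_apply, Finset.sum_add_distrib]
    rw [h1, h2, add_zero]
  neg_mem' := by
    intro a ha k
    have h1 := ha k
    simp only [Pi.neg_apply, Finset.sum_neg_distrib]
    rw [h1, neg_zero]

section

variable {R : Type} [CommRing R]

/-- permutations of the five coordinates -/
def pa (a : Equiv.Perm (Fin 5)) (v : EE R) : EE R :=
  ⟨fun k i => v.1 k (a⁻¹ i), by
    intro k
    rw [← v.2 k]
    exact Equiv.sum_comp (a⁻¹ : Equiv.Perm (Fin 5)) (fun i => v.1 k i)⟩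

@[simp] theorem pa_apply (a : Equiv.Perm (Fin 5)) (v : EE R) (k : Fin 2) (i : Fin 5) :
    (pa a v).1 k i = v.1 k (a⁻¹ i) := rfl

theorem pa_add (a : Equiv.Perm (Fin 5)) (v w : EE R) : pa a (v + w) = pa a v + pa a w := rfl

theorem pa_neg (a : Equiv.Perm (Fin 5)) (v : EE R) : pa a (-v) = -pa a v := rfl

theorem pa_zero (a : Equiv.Perm (Fin 5)) : pa a (0 : EE R) = 0 := rfl

theorem pa_one (v : EE R) : pa 1 v = v := rfl

theorem pa_mul (a b : Equiv.Perm (Fin 5)) (v : EE R) : pa (a * b) v = pa a (pa b v) := by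
  apply Subtype.ext; funext k i; simp [mul_inv_rev]

end

/-- the affine group: linear part in the alternating group, arbitrary translation part -/
@[ext] structure Aff (R : Type) [CommRing R] where
  a : A5
  t : EE R

section

variable {R : Type} [CommRing R]

instance : Group (Aff R) where
  mul g h := ⟨g.a * h.a, g.t + pa g.a h.t⟩
  one := ⟨1, 0⟩
  inv g := ⟨g.a⁻¹, -pa (g.a⁻¹ : A5) g.t⟩
  mul_assoc g h k := by
    apply Aff.ext
    · exact mul_assoc g.a h.a k.a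
    · change g.t + pa g.a h.t + pa ((g.a * h.a : A5) : Equiv.Perm (Fin 5)) k.t =
        g.t + pa g.a (h.t + pa h.a k.t)
      rw [pa_add, Subgroup.coe_mul, pa_mul, add_assoc]
  one_mul g := by
    apply Aff.ext
    · exact one_mul g.a
    · change (0 : EE R) + pa ((1 : A5) : Equiv.Perm (Fin 5)) g.t = g.t
      rw [zero_add]; rfl
  mul_one g := by
    apply Aff.ext
    · exact mul_one g.a
    · change g.t + pa g.a 0 = g.t
      rw [pa_zero, add_zero]
  inv_mul_cancel g := by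
    apply Aff.ext
    · exact inv_mul_cancel g.a
    · change -pa (g.a⁻¹ : A5) g.t + pa (g.a⁻¹ : A5) g.t = 0
      simp

theorem mul_a (g h : Aff R) : (g * h).a = g.a * h.a := rfl
theorem mul_t (g h : Aff R) : (g * h).t = g.t + pa g.a h.t := rfl
theorem one_a : (1 : Aff R).a = 1 := rfl
theorem one_t : (1 : Aff R).t = 0 := rfl
theorem inv_a (g : Aff R) : (g⁻¹).a = g.a⁻¹ := rfl
theorem inv_t (g : Aff R) : (g⁻¹).t = -pa (g.a⁻¹ : A5) g.t := rfl

/-- the action on `EE R` by affine maps -/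
def act : Aff R →* Equiv.Perm (EE R) where
  toFun g :=
    { toFun := fun x => g.t + pa g.a x
      invFun := fun x => (g⁻¹).t + pa (g⁻¹).a x
      left_inv := by
        intro x
        have : (g⁻¹ * g).t + pa (g⁻¹ * g).a x = x := by
          rw [inv_mul_cancel, one_t, one_a, zero_add]; rfl
        rw [mul_t, mul_a, Subgroup.coe_mul, pa_mul, add_assoc, ← pa_add] at this
        exact this
      right_inv := by
        intro x
        have : (g * g⁻¹).t + pa (g * g⁻¹).a x = x := by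
          rw [mul_inv_cancel, one_t, one_a, zero_add]; rfl
        rw [mul_t, mul_a, Subgroup.coe_mul, pa_mul, add_assoc, ← pa_add] at this
        exact this }
  map_one' := by
    apply Equiv.ext; intro x
    change (1 : Aff R).t + pa (1 : Aff R).a x = x
    rw [one_t, one_a, zero_add]; rfl
  map_mul' g h := by
    apply Equiv.ext; intro x
    change (g * h).t + pa (g * h).a x = g.t + pa g.a (h.t + pa h.a x)
    rw [mul_t, mul_a, Subgroup.coe_mul, pa_mul, pa_add, add_assoc]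

theorem act_apply (g : Aff R) (x : EE R) : act g x = g.t + pa g.a x := rfl

/-- exchanging the two vectors -/
def sw (R : Type) [CommRing R] : Equiv.Perm (EE R) where
  toFun x := ⟨fun k i => x.1 (Equiv.swap 0 1 k) i, fun k => x.2 (Equiv.swap 0 1 k)⟩
  invFun x := ⟨fun k i => x.1 (Equiv.swap 0 1 k) i, fun k => x.2 (Equiv.swap 0 1 k)⟩
  left_inv x := by apply Subtype.ext; funext k i; simp
  right_inv x := by apply Subtype.ext; funext k i; simp

/-- reduction of coefficients on vectors -/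
def redE {R' : Type} [CommRing R'] (f : R →+* R') (x : EE R) : EE R' :=
  ⟨fun k i => f (x.1 k i), by
    intro k
    have := congrArg f (x.2 k)
    rw [map_sum, map_zero] at this
    exact this⟩

/-- reduction of coefficients on the affine groups -/
def red {R' : Type} [CommRing R'] (f : R →+* R') : Aff R →* Aff R' where
  toFun g := ⟨g.a, redE f g.t⟩
  map_one' := by
    apply Aff.ext
    · rfl
    · apply Subtype.ext; funext k i; exact map_zero f
  map_mul' g h := by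
    apply Aff.ext
    · rfl
    · apply Subtype.ext; funext k i
      exact map_add f (g.t.1 k i) ((pa g.a h.t).1 k i)

end

/-- the special integer vectors -/
def TT : Finset (Fin 5 → ℤ) :=
  {![1, 0, 0, 0, -1], ![2, 0, 0, 0, -2],
   ![0, 1, 0, 0, -1], ![0, 2, 0, 0, -2], ![0, 4, 0, 0, -4],
   ![0, 0, 1, 0, -1], ![0, 0, 2, 0, -2], ![0, 0, 4, 0, -4], ![0, 0, 8, 0, -8],
   ![0, 0, 0, 1, -1], ![0, 0, 0, 2, -2], ![0, 0, 0, 4, -4], ![0, 0, 0, 8, -8], ![0, 0, 0, 16, -16],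
   ![1, 1, 1, 1, -4]}

/-- the special letters -/
def XX (R : Type) [CommRing R] : Set (EE R) :=
  {x | ∃ k : Fin 2, ∃ u ∈ TT, ∀ k' i, x.1 k' i = if k' = k then ((u i : ℤ) : R) else 0}

/-- the group of affine maps -/
def PP (R : Type) [CommRing R] : Subgroup (Equiv.Perm (EE R)) := (act (R := R)).range

/-- the translation by `t` -/
def tr {R : Type} [CommRing R] (t : EE R) : Equiv.Perm (EE R) := act ⟨1, t⟩

def S_F1 : Prop := ∀ p : ℕ, p.Prime → 1000 ≤ p →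
  ((0 : EE (ZMod p)) ∉ XX (ZMod p)) ∧
  (∃ x ∈ XX (ZMod p), ∃ y ∈ XX (ZMod p), x ≠ y) ∧
  (∃ g ∈ PP (ZMod p), g 0 = 0 ∧ ∀ x ∈ XX (ZMod p), g x ∉ XX (ZMod p)) ∧
  (∃ h ∈ PP (ZMod p), ∃ x ∈ XX (ZMod p), h x ∈ XX (ZMod p) ∧
    ∀ y, (y = 0 ∨ y ∈ XX (ZMod p)) → (h y = 0 ∨ h y ∈ XX (ZMod p)) → y = x) ∧
  (∀ x, x ∈ XX (ZMod p) ↔ sw (ZMod p) x ∈ XX (ZMod p)) ∧
  sw (ZMod p) ∉ PP (ZMod p)

def S_F2a : Prop := ∀ p : ℕ, p.Prime → 1000 ≤ p → ∀ s : Equiv.Perm (EE (ZMod p)),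
  (∀ g, g ∈ PP (ZMod p) ↔ s * g * s⁻¹ ∈ PP (ZMod p)) → s 0 = 0 →
  ∀ x y, s (x + y) = s x + s y

def S_F2b : Prop := ∀ p : ℕ, p.Prime → 1000 ≤ p → ∀ s : Equiv.Perm (EE (ZMod p)),
  (∀ x y, s (x + y) = s x + s y) → (∀ x, x ∈ XX (ZMod p) ↔ s x ∈ XX (ZMod p)) →
  s = 1 ∨ s = sw (ZMod p)

def S_F3 : Prop := ∀ p : ℕ, p.Prime → 1000 ≤ p → ∀ s : Equiv.Perm (EE (ZMod p)),
  (∀ g ∈ PP (ZMod p), s * g = g * s) → s = 1

/-- normal subgroups of the affine groups over prime fields -/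
def S_F4 : Prop := ∀ p : ℕ, p.Prime → 1000 ≤ p → ∀ N : Subgroup (Equiv.Perm (EE (ZMod p))),
  N ≤ PP (ZMod p) → (∀ g ∈ PP (ZMod p), ∀ r ∈ N, g * r * g⁻¹ ∈ N) →
  N = PP (ZMod p) ∨ ∃ W : AddSubgroup (Fin 2 → ZMod p),
    ∀ g, g ∈ N ↔ ∃ t : EE (ZMod p), (∀ i, (fun k => t.1 k i) ∈ W) ∧ g = tr t

def S_F4r : Prop := ∀ p : ℕ, p.Prime → 1000 ≤ p → ∀ N : Subgroup (Equiv.Perm (EE (ZMod p))),
  N ≤ PP (ZMod p) → (∀ g ∈ PP (ZMod p), ∀ r ∈ N, g * r * g⁻¹ ∈ N) → N ≤ ⁅N, PP (ZMod p)⁆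

def S_F4m : Prop := ∀ p : ℕ, p.Prime → 1000 ≤ p →
  ∃ F : Set (Subgroup (Equiv.Perm (EE (ZMod p)))), F.Finite ∧ p ≤ F.ncard ∧
    ∀ N ∈ F, N ≤ PP (ZMod p) ∧ N ≠ ⊥ ∧ ∀ g ∈ PP (ZMod p), ∀ r ∈ N, g * r * g⁻¹ ∈ N

def S_F4f : Prop := ∀ p : ℕ, p.Prime → 1000 ≤ p →
  ∃ F : Set (Subgroup (Equiv.Perm (EE (ZMod p)))), F.Finite ∧ F.ncard ≤ 4 ∧
    ∀ N, N ≤ PP (ZMod p) → N ≠ ⊥ → (∀ g ∈ PP (ZMod p), ∀ r ∈ N, g * r * g⁻¹ ∈ N) →
      (∀ r ∈ N, sw (ZMod p) * r * (sw (ZMod p))⁻¹ ∈ N) → N ∈ F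

/-- the primes -/
noncomputable def pp (n : ℕ) : ℕ := (Nat.exists_infinite_primes (2 ^ (n + 10))).choose

theorem pp_le (n : ℕ) : 2 ^ (n + 10) ≤ pp n :=
  (Nat.exists_infinite_primes (2 ^ (n + 10))).choose_spec.1

theorem pp_prime (n : ℕ) : (pp n).Prime :=
  (Nat.exists_infinite_primes (2 ^ (n + 10))).choose_spec.2

theorem pp_ge (n : ℕ) : 1000 ≤ pp n := by
  have h := pp_le n
  have h2 : 2 ^ 10 ≤ 2 ^ (n + 10) := Nat.pow_le_pow_right (by norm_num) (by omega)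
  have h3 : (2 : ℕ) ^ 10 = 1024 := by norm_num
  omega

/-- reduction of the integral affine group modulo `pp n`, as permutations -/
noncomputable def rr (n : ℕ) : Aff ℤ →* Equiv.Perm (EE (ZMod (pp n))) :=
  (act (R := ZMod (pp n))).comp (red (Int.castRingHom (ZMod (pp n))))

/-- exchange of the two vectors as an automorphism of the affine group -/
def swA (R : Type) [CommRing R] : Aff R ≃* Aff R where
  toFun g := ⟨g.a, sw R g.t⟩
  invFun g := ⟨g.a, sw R g.t⟩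
  left_inv g := by
    apply Aff.ext
    · rfl
    · exact (sw R).left_inv g.t
  right_inv g := by
    apply Aff.ext
    · rfl
    · exact (sw R).left_inv g.t
  map_mul' g h := rfl

def S_F5 : Prop := commutator (Aff ℤ) = ⊤ ∧ Group.FG (Aff ℤ) ∧ Infinite (Aff ℤ)

def S_F6 : Prop := (∀ n, (rr n).range = PP (ZMod (pp n))) ∧
  (∀ (N : ℕ) (b : Aff ℤ), (∀ n, N ≤ n → rr n b = 1) → b = 1) ∧
  (∀ n b, sw (ZMod (pp n)) * rr n b * (sw (ZMod (pp n)))⁻¹ = rr n (swA ℤ b)) ∧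
  (∀ n (x y : EE (ZMod (pp n))), ∃ g ∈ PP (ZMod (pp n)), g x = y) ∧
  ∀ n, Finite (EE (ZMod (pp n)))

def S_F7 : Prop := ∃ F : Set (∀ n, Equiv.Perm (EE (ZMod (pp n)))), F.Finite ∧
  ∀ t : ∀ n, Equiv.Perm (EE (ZMod (pp n))),
    (∀ n, 1 ≤ n → ∃ g ∈ PP (ZMod (pp n)), t n = g ∨ t n = g * sw (ZMod (pp n))) →
      (∃ f : Aff ℤ →* Aff ℤ, ∀ n, 1 ≤ n → ∀ b, rr n (f b) = t n * rr n b * (t n)⁻¹) →
      ∃ u ∈ F, ∃ b, ∀ n, 1 ≤ n → t n = rr n b * u n

def S_LOC : Prop := Nonempty Loc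

end Af

end Pool.Agent.N206.CG
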