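import Pool.Agent.N206.CG.Stm

/-!
Project CG: statements about restricted wreath products, counting and the final theorem.
-/

namespace Pool.Agent.N206.CG

open Classical

section Wreath

variable (G : Type) [Group G] (U : Subgroup G)

/-- the base group is contained in every non-trivial normal subgroup -/
def S_W1 : Prop := U.normalCore = ⊥ → ∀ N : Subgroup (Wr G U), N.Normal → N ≠ ⊥ →
  ∀ k, SemidirectProduct.inl k ∈ N

def S_W2 : Prop := Group.FG G → Group.FG (Wr G U)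

/-- automorphisms permute the factors -/
def S_W3 : Prop := U.normalCore = ⊥ → ∀ θ : MulAut (Wr G U), ∃ (π : Equiv.Perm (G ⧸ U)) (f : G ⧸ U → MulAut A5)
  (φ : MulAut G), (∀ z a, θ (SemidirectProduct.inl (sgl z a)) =
    SemidirectProduct.inl (sgl (π z) (f z a))) ∧
    (∀ w, (θ w).right = φ w.right) ∧ ∀ g z, π (g • z) = φ g • π z

/-- extension of automorphisms of `G` preserving `U` -/
def S_W4 : Prop := ∀ φ : MulAut G, (∀ h, h ∈ U ↔ φ h ∈ U) → ∃ Φ : MulAut (Wr G U),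
  (∀ g, Φ (SemidirectProduct.inr g) = SemidirectProduct.inr (φ g)) ∧
  (∀ w, (Φ w).right = φ w.right) ∧
  ∀ (g : G) a, Φ (SemidirectProduct.inl (sgl (g : G ⧸ U) a)) =
    SemidirectProduct.inl (sgl ((φ g : G) : G ⧸ U) a)

/-- extension of automorphisms of the alternating group -/
def S_W5 : Prop := ∀ ψ : MulAut A5, ∃ Ψ : MulAut (Wr G U),
  (∀ g, Ψ (SemidirectProduct.inr g) = SemidirectProduct.inr g) ∧
  (∀ w, (Ψ w).right = w.right) ∧
  ∀ z a, Ψ (SemidirectProduct.inl (sgl z a)) = SemidirectProduct.inl (sgl z (ψ a))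

/-- almost invariant functions are almost constant -/
def S_AI : Prop := ∀ f : G ⧸ U → MulAut A5, (∀ g : G, {z | f (g • z) ≠ f z}.Finite) →
  ∃ c, {z | f z ≠ c}.Finite

/-- two automorphisms of the wreath product agreeing on the generators are equal -/
def S_WEXT : Prop := ∀ θ θ' : MulAut (Wr G U),
  (∀ z a, θ (SemidirectProduct.inl (sgl z a)) = θ' (SemidirectProduct.inl (sgl z a))) →
  (∀ g, θ (SemidirectProduct.inr g) = θ' (SemidirectProduct.inr g)) → θ = θ'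

/-- automorphisms acting trivially on the quotient and on the set of factors -/
def S_W6 : Prop := S_AI G U → ∀ (θ : MulAut (Wr G U)) (f : G ⧸ U → MulAut A5),
  (∀ z a, θ (SemidirectProduct.inl (sgl z a)) = SemidirectProduct.inl (sgl z (f z a))) →
  (∀ w, (θ w).right = w.right) →
  ∃ (ψ : MulAut A5) (k : FS (G ⧸ U) A5), ∀ Ψ : MulAut (Wr G U),
    (∀ g, Ψ (SemidirectProduct.inr g) = SemidirectProduct.inr g) →
    (∀ z a, Ψ (SemidirectProduct.inl (sgl z a)) = SemidirectProduct.inl (sgl z (ψ a))) →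
    θ = MulAut.conj (SemidirectProduct.inl k) * Ψ

/-- finiteness of the outer automorphism group -/
def S_WOUT : Prop := U.normalCore = ⊥ → (∀ d, (∀ h, h ∈ U ↔ d * h * d⁻¹ ∈ U) → d ∈ U) →
  (∃ F : Set (MulAut G), F.Finite ∧ (∀ u ∈ F, ∀ h, h ∈ U ↔ u h ∈ U) ∧
    ∀ α : MulAut G, (∀ h, h ∈ U ↔ α h ∈ U) → ∃ u ∈ F, ∃ d, α = MulAut.conj d * u) →
  S_AI G U →
  Finite (MulAut (Wr G U) ⧸ (MulAut.conj : Wr G U →* MulAut (Wr G U)).range)

end Wreath

/-- almost invariant functions on `(G × G) / (H × H)` -/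
def S_AI2 : Prop := ∀ (G : Type) [Group G] (H : Subgroup G), Group.FG G → Infinite (G ⧸ H) →
  S_AI (G × G) (H.prod H)

/-- pure counting: the two functions have no common growth type -/
def S_GROW : Prop := ∀ (c N : ℕ → ℕ) (I : ℕ → ℕ), StrictMono I → I 0 = 1 →
  (∀ k n, I (k + 1) ≤ n → 2 ^ k ≤ N n) → (∀ k n, n < I (k + 1) → c n ≤ (4 * (k + 1)) ^ 2) →
  ¬ ∃ f : ℕ → ℝ, (∀ n, 0 ≤ f n) ∧ GrowthType c f ∧ GrowthType N f

/-- the main theorem -/
def S_MAIN : Prop := ∃ (Γ : Type) (_ : Group Γ), Group.FG Γ ∧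
  Finite (MulAut Γ ⧸ (MulAut.conj : Γ →* MulAut Γ).range) ∧
  ¬ ∃ f : ℕ → ℝ, (∀ n, 0 ≤ f n) ∧ GrowthType (sCh Γ) f ∧ GrowthType (sN Γ) f

end Pool.Agent.N206.CG
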