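import Pool.Agent.N206.CG.Stm2
import Pool.Agent.N227.CG.B1
import Pool.Agent.N413.CG.B2
import Pool.Agent.N7.CG.B3
import Pool.Agent.N901.CG.B4
import Pool.Agent.N78.CG.SYS
import Pool.Agent.N945.CG.Perf
import Pool.Agent.N128.CG.TOP
import Pool.Agent.N527.CG.CLS
import Pool.Agent.N340.CG.NC
import Pool.Agent.N711.CG.D1
import Pool.Agent.N476.CG.RULA
import Pool.Agent.N787.CG.RULB
import Pool.Agent.N935.CG.LEN
import Pool.Agent.N650.CG.C1
import Pool.Agent.N56.CG.C2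
import Pool.Agent.N862.CG.HC
import Pool.Agent.N861.CG.G1
import Pool.Agent.N348.CG.G2
import Pool.Agent.N395.CG.Out
import Pool.Agent.N37.CG.Autd
import Pool.Agent.N291.CG.NR
import Pool.Agent.N713.CG.CNT
import Pool.Agent.N364.CG.CntG
import Pool.Agent.N749.CG.W1
import Pool.Agent.N774.CG.W2
import Pool.Agent.N353.CG.W6
import Pool.Agent.N773.CG.WOUT
import Pool.Agent.N402.CG.AI2

/-!
Project CG: assembly of the main theorem from the local data.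
-/

namespace Pool.Agent.N206.CG

theorem sys_of (L : Loc) : Nonempty (Sys L) := by
  have h1 := Pool.Agent.N227.CG.t_B1 L
  have h2 := Pool.Agent.N413.CG.t_B2 L h1
  have h3 := Pool.Agent.N7.CG.t_B3 L h1 h2
  have h4 := Pool.Agent.N901.CG.t_B4 L
  exact Pool.Agent.N78.CG.t_SYS L h1 h2 h3 h4

theorem main_of (L : Loc) (hHR : ∀ S : Sys L, HRules S)
    (hW3 : ∀ (G : Type) [Group G] (U : Subgroup G), S_W1 G U → S_W3 G U) :
    ∃ (Γ : Type) (_ : Group Γ), Group.FG Γ ∧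
      Finite (MulAut Γ ⧸ (MulAut.conj : Γ →* MulAut Γ).range) ∧
      (∀ n, {N : Subgroup Γ | N.Normal ∧ N.index ≠ 0 ∧ N.index ≤ n}.Finite) ∧
      ¬ ∃ f : ℕ → ℝ, (∀ n, 0 ≤ f n) ∧ GrowthType (sCh Γ) f ∧ GrowthType (sN Γ) f := by
  obtain ⟨S⟩ := sys_of L
  have hperf := Pool.Agent.N945.CG.t_PERF S
  have hz := Pool.Agent.N945.CG.t_Z S
  have hfg : Group.FG (S.D 0) := Pool.Agent.N945.CG.t_FG S
  have htop := Pool.Agent.N128.CG.t_TOP S hperf
  have hker := Pool.Agent.N128.CG.t_KER S htop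
  have hcomm := Pool.Agent.N527.CG.t_COMM S hperf htop
  have hcls := Pool.Agent.N527.CG.t_CLS S hperf htop
  have hnc := Pool.Agent.N340.CG.t_NC S htop hz
  have hd1 := Pool.Agent.N711.CG.t_D1 S hker hnc hz
  have hA := Pool.Agent.N476.CG.t_RULA S hd1 hz
  have hB := Pool.Agent.N787.CG.t_RULB S hA hd1 hz
  have hlen := Pool.Agent.N935.CG.t_LEN S
  have hsec := Pool.Agent.N935.CG.t_SEC S
  have hstab := Pool.Agent.N935.CG.t_STAB S hlen hsec
  have hc1 := Pool.Agent.N650.CG.t_C1 S hA hstab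
  have hc3 := Pool.Agent.N650.CG.t_C3 S hA hB
  have hc2 := Pool.Agent.N56.CG.C2.t_C2 S hA hB hlen hsec
  have hcontr := Pool.Agent.N395.CG.t_CONTR S hc1 hc2 hc3
  have hHR' := hHR S
  have hcore := Pool.Agent.N862.CG.t_HCORE S hHR'
  have hinf : Infinite (S.D 0 ⧸ S.Hs) := Pool.Agent.N862.CG.t_HINF S hcore
  have hinf0 : Infinite (S.D 0) :=
    Infinite.of_surjective (QuotientGroup.mk : S.D 0 → S.D 0 ⧸ S.Hs) Quotient.mk_surjective
  have hg1 := N861.CG.t_G1 S hA hHR'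
  have hg2 := Pool.Agent.N348.CG.t_G2 S hA hB hHR' hg1
  have hnorm := Pool.Agent.N348.CG.t_HNORM S hA hHR' hg1 hg2 hstab
  have hout := Pool.Agent.N395.CG.t_OUT S hA hB hg1 hg2 hcontr
  have hautd := Pool.Agent.N37.CG.t_AUTD S hnc hz
  have hout2 := Pool.Agent.N37.CG.t_OUT2 S hout hautd
  have hucore : (UU S).normalCore = ⊥ := Pool.Agent.N37.CG.t_UCORE S hcore
  have hunorm := Pool.Agent.N37.CG.t_UNORM S hnorm
  have hnr := Pool.Agent.N291.CG.t_NR S hinf0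
  have hcnt := Pool.Agent.N713.CG.t_CNT S hnr hcls hinf0
  have hw1 := Pool.Agent.N749.CG.W1.t_W1 (S.D 0 × S.D 0) (UU S)
  have hw2 := Pool.Agent.N774.CG.W2.t_W2 (S.D 0 × S.D 0) (UU S)
  have hwext := Pool.Agent.N774.CG.W2.t_WEXT (S.D 0 × S.D 0) (UU S)
  have hw4 := Pool.Agent.N774.CG.W2.t_W4 (S.D 0 × S.D 0) (UU S)
  have hw5 := Pool.Agent.N774.CG.W2.t_W5 (S.D 0 × S.D 0) (UU S)
  have hw3 := hW3 (S.D 0 × S.D 0) (UU S) hw1
  have hw6 := Pool.Agent.N353.CG.t_W6 (S.D 0 × S.D 0) (UU S) hwext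
  have hwout := Pool.Agent.N773.CG.t_WOUT (S.D 0 × S.D 0) (UU S) hw3 hw4 hw5 hw6 hwext
  have hai := Pool.Agent.N402.CG.t_AI2 (S.D 0) S.Hs hfg hinf
  have hcn := Pool.Agent.N364.CG.t_CNTN S hcomm hcnt hw1 hucore hinf0
  have hcc := Pool.Agent.N364.CG.t_CNTC S hcomm hcnt hw1 hucore hinf0 hw4 hHR'
  refine ⟨GG S, inferInstance, ?_, ?_, ?_, ?_⟩
  · have := hfg
    exact hw2 inferInstance
  · exact hwout hucore hunorm hout2 hai
  · intro n
    obtain ⟨I, -, -, hfin, -⟩ := hcnt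
    refine (((hfin n).prod (hfin n)).image (Pool.Agent.N364.CG.psi S)).subset ?_
    rintro N ⟨hN, hi, hn⟩
    obtain ⟨p, rfl, h1, h2, h3, h4, h5, h6⟩ :=
      Pool.Agent.N364.CG.struct S hcomm hw1 hucore hinf0 N hN hi
    exact ⟨p, ⟨⟨h1, h3, le_trans h4 hn⟩, ⟨h2, h5, le_trans h6 hn⟩⟩, rfl⟩
  · obtain ⟨I, hI, hI0, -, hlow, hup⟩ := hcnt
    refine Pool.Agent.N402.CG.t_GROW (sCh (GG S)) (sN (GG S)) I hI hI0 ?_ ?_
    · intro k n hk
      exact le_trans (hlow k n hk) (hcn n)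
    · intro k n hk
      exact le_trans (hcc n) (Nat.pow_le_pow_left (hup k n hk) 2)

end Pool.Agent.N206.CG
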