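import Pool.Agent.N206.CG.Def

namespace Pool.Agent.N206.CG

open Classical

namespace Sys

variable {L : Loc} (S : Sys L)

theorem sec_one (n : ℕ) (x : L.E n) : S.sec n 1 x = 1 := by
  have h := S.sec_mul n 1 1 x
  rw [mul_one, map_one, Equiv.Perm.one_apply] at h
  exact (mul_eq_left.mp h.symm)

theorem sec_inv (n : ℕ) (d : S.D n) (x : L.E n) :
    S.sec n d⁻¹ x = (S.sec n d ((S.root n d)⁻¹ x))⁻¹ := by
  have h := S.sec_mul n d d⁻¹ x
  rw [mul_inv_cancel, S.sec_one, map_inv] at h
  exact (inv_eq_of_mul_eq_one_right h.symm).symm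

theorem sec_inv' (n : ℕ) (d : S.D n) (x : L.E n) :
    S.sec n d⁻¹ (S.root n d x) = (S.sec n d x)⁻¹ := by
  rw [S.sec_inv]; simp

@[simp] theorem root_lam (n : ℕ) (x : L.E n) (d : S.D (n + 1)) : S.root n (S.lam n x d) = 1 := by
  unfold lam; rw [S.root_mk]; rfl

theorem sec_lam (n : ℕ) (x : L.E n) (d : S.D (n + 1)) (y : L.E n) :
    S.sec n (S.lam n x d) y = if y = x then d else 1 := by
  unfold lam; rw [S.sec_mk]

@[simp] theorem sec_lam_self (n : ℕ) (x : L.E n) (d : S.D (n + 1)) :
    S.sec n (S.lam n x d) x = d := by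
  rw [S.sec_lam, if_pos rfl]

theorem sec_lam_ne (n : ℕ) (x : L.E n) (d : S.D (n + 1)) (y : L.E n) (h : y ≠ x) :
    S.sec n (S.lam n x d) y = 1 := by
  rw [S.sec_lam, if_neg h]

theorem lam_mul (n : ℕ) (x : L.E n) (d e : S.D (n + 1)) :
    S.lam n x (d * e) = S.lam n x d * S.lam n x e := by
  apply S.ext
  · rw [map_mul]; simp
  · intro y
    rw [S.sec_mul, S.root_lam, Equiv.Perm.one_apply, S.sec_lam, S.sec_lam, S.sec_lam]
    by_cases h : y = x <;> simp [h]

theorem lam_one (n : ℕ) (x : L.E n) : S.lam n x 1 = 1 := by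
  apply S.ext
  · rw [map_one]; simp
  · intro y
    rw [S.sec_lam, S.sec_one]; simp

/-- `lam` as a homomorphism -/
noncomputable def lamH (n : ℕ) (x : L.E n) : S.D (n + 1) →* S.D n where
  toFun := S.lam n x
  map_one' := S.lam_one n x
  map_mul' := S.lam_mul n x

@[simp] theorem lamH_apply (n : ℕ) (x : L.E n) (d : S.D (n + 1)) : S.lamH n x d = S.lam n x d := rfl

theorem lam_inv (n : ℕ) (x : L.E n) (d : S.D (n + 1)) : S.lam n x d⁻¹ = (S.lam n x d)⁻¹ :=
  map_inv (S.lamH n x) d

theorem lam_inj (n : ℕ) (x : L.E n) (d e : S.D (n + 1)) (h : S.lam n x d = S.lam n x e) :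
    d = e := by
  have := congrArg (fun u => S.sec n u x) h
  simpa using this

theorem conj_lam (n : ℕ) (d : S.D n) (x : L.E n) (g : S.D (n + 1)) :
    d * S.lam n x g * d⁻¹ = S.lam n (S.root n d x) (S.sec n d x * g * (S.sec n d x)⁻¹) := by
  apply S.ext
  · rw [map_mul, map_mul, map_inv]; simp
  · intro y
    obtain ⟨w, rfl⟩ := (S.root n d).surjective y
    rw [S.sec_mul, S.sec_mul, S.sec_inv', S.sec_lam, S.sec_lam, map_inv]
    simp only [Equiv.Perm.inv_def, Equiv.symm_apply_apply, S.root_lam, Equiv.Perm.one_apply]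
    by_cases h : w = x
    · subst h; simp
    · simp [h]

theorem lam_comm (n : ℕ) (x y : L.E n) (h : x ≠ y) (g g' : S.D (n + 1)) :
    S.lam n x g * S.lam n y g' = S.lam n y g' * S.lam n x g := by
  apply S.ext
  · rw [map_mul, map_mul]; simp
  · intro w
    rw [S.sec_mul, S.sec_mul, S.root_lam, S.root_lam, Equiv.Perm.one_apply, S.sec_lam, S.sec_lam]
    by_cases h1 : w = x
    · have h2 : w ≠ y := by rw [h1]; exact h
      simp [h1, h]
    · simp [h1]

/-- an element of `rt` moving `x` to `y` -/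
theorem exists_rt (n : ℕ) (x y : L.E n) : ∃ g : L.P n, S.root n (S.rt n g) x = y := by
  obtain ⟨g, hg, h⟩ := L.trans n x y
  exact ⟨⟨g, hg⟩, by rw [S.root_rt]; exact h⟩

/-- every element is the product of `mkk` of its sections and its root -/
theorem mkk_eq (n : ℕ) (d : S.D n) :
    S.mkk n (fun x => S.sec n d x) ⟨S.root n d, S.root_mem n d⟩ = d := by
  apply S.ext
  · rw [S.root_mk]
  · intro x; rw [S.sec_mk]

/-- commutator of an element moving `x` with two elements at `x`:
`[[d, lam a], lam b] = lam [a⁻¹, b]` with `[x, y] = x y x⁻¹ y⁻¹` -/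
theorem comm_lam (n : ℕ) (d : S.D n) (x : L.E n) (h : S.root n d x ≠ x) (a b : S.D (n + 1)) :
    (d * S.lam n x a * d⁻¹ * (S.lam n x a)⁻¹) * S.lam n x b *
      (d * S.lam n x a * d⁻¹ * (S.lam n x a)⁻¹)⁻¹ * (S.lam n x b)⁻¹ =
      S.lam n x (a⁻¹ * b * a * b⁻¹) := by
  rw [S.conj_lam n d x a]
  set u := S.lam n (S.root n d x) (S.sec n d x * a * (S.sec n d x)⁻¹)
  have hu : ∀ g, u * S.lam n x g = S.lam n x g * u := fun g => S.lam_comm n _ _ h _ g
  have h1 := hu a⁻¹
  have h2 := hu b
  rw [S.lam_inv] at h1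
  have h3 : u * (S.lam n x a)⁻¹ * S.lam n x b = (S.lam n x a)⁻¹ * S.lam n x b * u := by
    rw [h1, mul_assoc, h2, mul_assoc]
  have h4 : (u * (S.lam n x a)⁻¹)⁻¹ = u⁻¹ * S.lam n x a := by rw [h1]; group
  rw [h4, h3, S.lam_mul, S.lam_mul, S.lam_mul, S.lam_inv, S.lam_inv]
  group

/-- an element with root `1` lies in a subgroup containing all `lam x (sec x)` -/
theorem mem_of_lam (n : ℕ) (N : Subgroup (S.D n)) (d : S.D n) (h1 : S.root n d = 1)
    (h : ∀ x, S.lam n x (S.sec n d x) ∈ N) : d ∈ N := by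
  haveI : Fintype (L.E n) := Fintype.ofFinite _
  have key : ∀ F : Finset (L.E n), ∀ d : S.D n, S.root n d = 1 →
      (∀ x, x ∉ F → S.sec n d x = 1) → (∀ x, S.lam n x (S.sec n d x) ∈ N) → d ∈ N := by
    intro F
    induction F using Finset.induction_on with
    | empty =>
      intro d h1 h2 _
      have : d = 1 := by
        apply S.ext
        · rw [h1, map_one]
        · intro x; rw [h2 x (by simp), S.sec_one]
      rw [this]; exact N.one_mem
    | insert a F ha ih =>
      intro d h1 h2 h3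
      have e : d = S.lam n a (S.sec n d a) * ((S.lam n a (S.sec n d a))⁻¹ * d) := by group
      have h4 : S.root n ((S.lam n a (S.sec n d a))⁻¹ * d) = 1 := by
        rw [map_mul, map_inv]; simp [h1]
      have h5 : ∀ x, S.sec n ((S.lam n a (S.sec n d a))⁻¹ * d) x =
          if x = a then 1 else S.sec n d x := by
        intro x
        rw [S.sec_mul, h1, Equiv.Perm.one_apply, ← S.lam_inv, S.sec_lam]
        by_cases hx : x = a
        · subst hx; simp
        · simp [hx]
      rw [e]
      refine N.mul_mem (h3 a) (ih _ h4 ?_ ?_)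
      · intro x hx
        rw [h5]
        by_cases hxa : x = a
        · simp [hxa]
        · simp only [hxa, if_false]
          exact h2 x (by simp [hxa, hx])
      · intro x
        rw [h5]
        by_cases hxa : x = a
        · simp only [hxa, if_true]; rw [S.lam_one]; exact N.one_mem
        · simp only [hxa, if_false]; exact h3 x
  exact key Finset.univ d h1 (fun x hx => absurd (Finset.mem_univ x) hx) h

end Sys

end Pool.Agent.N206.CG
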