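import Mathlib

/-!
Project CG (MP_216434_al): characteristic versus normal subgroup growth.
Basic structures: local data `Loc`, systems of spinal groups `Sys`, the subgroup `Hs`,
automorphism sections `sg`, `asc`, word length sets `LL`, restricted wreath products `Wr`.
-/

namespace Pool.Agent.N206.CG

open Classical

/-- Local data: finite sets `E n` with base point `z n`, transitive groups `P n` on them, a finitely
generated perfect group `B` mapping onto all `P n`, a set of letters `X n` and an involution `J n`. -/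
structure Loc where
  E : ℕ → Type
  [fE : ∀ n, Finite (E n)]
  z : ∀ n, E n
  P : ∀ n, Subgroup (Equiv.Perm (E n))
  B : Type
  [gB : Group B]
  rho : ∀ n, B →* Equiv.Perm (E n)
  X : ∀ n, Set (E n)
  J : ∀ n, Equiv.Perm (E n)
  jB : B ≃* B
  rho_range : ∀ n, (rho n).range = P n
  rho_inj : ∀ (N : ℕ) (b : B), (∀ n, N ≤ n → rho n b = 1) → b = 1
  B_perf : commutator B = ⊤
  B_fg : Group.FG B
  B_inf : Infinite B
  trans : ∀ n x y, ∃ g ∈ P n, g x = y
  z_not : ∀ n, z n ∉ X n
  X_two : ∀ n, ∃ x ∈ X n, ∃ y ∈ X n, x ≠ y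
  dis : ∀ n, ∃ g ∈ P n, g (z n) = z n ∧ ∀ x ∈ X n, g x ∉ X n
  one : ∀ n, ∃ h ∈ P n, ∃ x ∈ X n, h x ∈ X n ∧
    ∀ y, (y = z n ∨ y ∈ X n) → (h y = z n ∨ h y ∈ X n) → y = x
  fix : ∀ n (s : Equiv.Perm (E n)), (∀ g ∈ P n, s * g = g * s) → s = 1
  rig : ∀ n (s : Equiv.Perm (E n)), (∀ g, g ∈ P n ↔ s * g * s⁻¹ ∈ P n) → s (z n) = z n →
    (∀ x, x ∈ X n ↔ s x ∈ X n) → s = 1 ∨ s = J n
  J_sq : ∀ n, J n * J n = 1
  J_z : ∀ n, J n (z n) = z n
  J_X : ∀ n x, x ∈ X n ↔ J n x ∈ X n
  J_rho : ∀ n b, J n * rho n b * (J n)⁻¹ = rho n (jB b)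
  J_not : ∀ n, J n ∉ P n
  res : ∀ n (R : Subgroup (Equiv.Perm (E n))), R ≤ P n →
    (∀ g ∈ P n, ∀ r ∈ R, g * r * g⁻¹ ∈ R) → R ≤ ⁅R, P n⁆
  many : ∀ n, ∃ F : Set (Subgroup (Equiv.Perm (E n))), F.Finite ∧ 2 ^ n ≤ F.ncard ∧
    ∀ R ∈ F, R ≤ P n ∧ R ≠ ⊥ ∧ ∀ g ∈ P n, ∀ r ∈ R, g * r * g⁻¹ ∈ R
  few : ∀ n, ∃ F : Set (Subgroup (Equiv.Perm (E n))), F.Finite ∧ F.ncard ≤ 4 ∧
    ∀ R, R ≤ P n → R ≠ ⊥ → (∀ g ∈ P n, ∀ r ∈ R, g * r * g⁻¹ ∈ R) →
      (∀ r ∈ R, J n * r * (J n)⁻¹ ∈ R) → R ∈ F
  fin : ∃ F : Set (∀ n, Equiv.Perm (E n)), F.Finite ∧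
    ∀ t : ∀ n, Equiv.Perm (E n), (∀ n, 1 ≤ n → ∃ g ∈ P n, t n = g ∨ t n = g * J n) →
      (∃ f : B →* B, ∀ n, 1 ≤ n → ∀ b, rho n (f b) = t n * rho n b * (t n)⁻¹) →
      ∃ u ∈ F, ∃ b, ∀ n, 1 ≤ n → t n = rho n b * u n

attribute [instance] Loc.fE Loc.gB

/-- A system of spinal groups over the local data `L`: `root` is the action on the first letter,
`sec` the sections, `mkk` says that every choice of sections and root occurs. -/
structure Sys (L : Loc) where
  D : ℕ → Type
  [gD : ∀ n, Group (D n)]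
  root : ∀ n, D n →* Equiv.Perm (L.E n)
  sec : ∀ n, D n → L.E n → D (n + 1)
  mkk : ∀ n, (L.E n → D (n + 1)) → L.P n → D n
  rt : ∀ n, L.P n →* D n
  sp : ∀ n, L.B →* D n
  jay : ∀ n, D n ≃* D n
  root_mem : ∀ n d, root n d ∈ L.P n
  sec_mul : ∀ n d e x, sec n (d * e) x = sec n d (root n e x) * sec n e x
  root_mk : ∀ n f r, root n (mkk n f r) = r
  sec_mk : ∀ n f r x, sec n (mkk n f r) x = f x
  ext : ∀ n d e, root n d = root n e → (∀ x, sec n d x = sec n e x) → d = e
  root_rt : ∀ n r, root n (rt n r) = r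
  sec_rt : ∀ n r x, sec n (rt n r) x = 1
  root_sp : ∀ n b, root n (sp n b) = 1
  sec_sp_z : ∀ n b, sec n (sp n b) (L.z n) = sp (n + 1) b
  sec_sp_X : ∀ n b, ∀ x ∈ L.X n, sec n (sp n b) x =
    rt (n + 1) ⟨L.rho (n + 1) b, by rw [← L.rho_range (n + 1)]; exact ⟨b, rfl⟩⟩
  sec_sp_o : ∀ n b x, x ≠ L.z n → x ∉ L.X n → sec n (sp n b) x = 1
  gen : ∀ n, Subgroup.closure (Set.range (rt n) ∪ Set.range (sp n)) = ⊤
  faith : ∀ K : ∀ n, Set (D n),
    (∀ n, ∀ d ∈ K n, root n d = 1 ∧ ∀ x, sec n d x ∈ K (n + 1)) → ∀ n, ∀ d ∈ K n, d = 1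
  root_jay : ∀ n d, root n (jay n d) = L.J n * root n d * (L.J n)⁻¹
  sec_jay : ∀ n d x, sec n (jay n d) (L.J n x) = jay (n + 1) (sec n d x)
  jay_sp : ∀ n b, jay n (sp n b) = sp n (L.jB b)

attribute [instance] Sys.gD

variable {L : Loc} (S : Sys L)

namespace Sys

/-- the element with root `1`, section `d` at `x` and `1` elsewhere -/
noncomputable def lam (n : ℕ) (x : L.E n) (d : S.D (n + 1)) : S.D n :=
  S.mkk n (fun y => if y = x then d else 1) 1

/-- elements with root `1` and all sections in `M` -/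
def powr (n : ℕ) (M : Subgroup (S.D (n + 1))) : Set (S.D n) :=
  {d | S.root n d = 1 ∧ ∀ x, S.sec n d x ∈ M}

/-- `IsN l R n N`: `N` is the subgroup of `D n` of all elements acting trivially above level `l`
and with all local actions at level `l` in `R` -/
inductive IsN (l : ℕ) (R : Subgroup (Equiv.Perm (L.E l))) : ∀ n : ℕ, Subgroup (S.D n) → Prop
  | base : IsN l R l (R.comap (S.root l))
  | step (n : ℕ) (N : Subgroup (S.D n)) (M : Subgroup (S.D (n + 1))) :
      IsN l R (n + 1) M → (∀ d, d ∈ N ↔ S.root n d = 1 ∧ ∀ x, S.sec n d x ∈ M) → IsN l R n N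

/-- decomposition of an automorphism -/
def ADec (n : ℕ) (α : MulAut (S.D n)) (σ : Equiv.Perm (L.E n))
    (a : L.E n → MulAut (S.D (n + 1))) : Prop :=
  ∀ x g, α (S.lam n x g) = S.lam n (σ x) (a x g)

/-- the permutation of the first letters induced by an automorphism -/
noncomputable def sg (n : ℕ) (α : MulAut (S.D n)) : Equiv.Perm (L.E n) :=
  if h : ∃ σ a, S.ADec n α σ a then h.choose else 1

/-- the sections of an automorphism -/
noncomputable def asc (n : ℕ) (α : MulAut (S.D n)) : L.E n → MulAut (S.D (n + 1)) :=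
  if h : ∃ σ a, S.ADec n α σ a then h.choose_spec.choose else fun _ => 1

/-- `HH n b h`: all iterated sections of `h` along `z` have trivial root, and their sections at
letters of `X` have root `rho b` -/
def HH (n : ℕ) (b : L.B) (h : S.D n) : Prop :=
  ∃ s : ∀ m, S.D m, s n = h ∧ ∀ m, n ≤ m → S.root m (s m) = 1 ∧
    s (m + 1) = S.sec m (s m) (L.z m) ∧
    ∀ x ∈ L.X m, S.root (m + 1) (S.sec m (s m) x) = L.rho (m + 1) b

/-- the subgroup `H` of `D 0` -/
def Hs : Subgroup (S.D 0) := Subgroup.closure {h | ∃ b, S.HH 0 b h}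

/-- elements of `D n` which are products with at most `k` letters from `sp` -/
def LL (n : ℕ) : ℕ → Set (S.D n)
  | 0 => Set.range (S.rt n)
  | k + 1 => {d | ∃ e ∈ LL n k, ∃ b g, d = e * S.sp n b * S.rt n g}

end Sys

/-! ### restricted wreath products -/

/-- finitely supported functions -/
def FS (Z A : Type) [Group A] : Subgroup (Z → A) where
  carrier := {f | (Function.mulSupport f).Finite}
  one_mem' := by simp
  mul_mem' := by
    intro a b ha hb
    exact (ha.union hb).subset (Function.mulSupport_mul a b)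
  inv_mem' := by
    intro a ha
    refine Set.Finite.subset ha ?_
    intro x hx hx'
    exact hx (by simp [hx'])

/-- the function with value `a` at `z` and `1` elsewhere -/
noncomputable def sgl {Z A : Type} [Group A] (z : Z) (a : A) : FS Z A :=
  ⟨fun y => if y = z then a else 1, by
    refine (Set.finite_singleton z).subset ?_
    intro y hy
    by_contra h
    apply hy
    simp only [Set.mem_singleton_iff] at h
    simp [h]⟩

/-- the action of `G` on finitely supported functions on the `G`-set `Z` -/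
def wact (G Z A : Type) [Group G] [MulAction G Z] [Group A] : G →* MulAut (FS Z A) where
  toFun g :=
    { toFun := fun f => ⟨fun z => f.1 (g⁻¹ • z), by
        have h := f.2
        have e : Function.mulSupport (fun z => f.1 (g⁻¹ • z)) =
            (fun z => g⁻¹ • z) ⁻¹' (Function.mulSupport f.1) := rfl
        change (Function.mulSupport (fun z => f.1 (g⁻¹ • z))).Finite
        rw [e]
        exact Set.Finite.preimage (MulAction.injective g⁻¹).injOn h⟩
      invFun := fun f => ⟨fun z => f.1 (g • z), by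
        have h := f.2
        have e : Function.mulSupport (fun z => f.1 (g • z)) =
            (fun z => g • z) ⁻¹' (Function.mulSupport f.1) := rfl
        change (Function.mulSupport (fun z => f.1 (g • z))).Finite
        rw [e]
        exact Set.Finite.preimage (MulAction.injective g).injOn h⟩
      left_inv := by intro f; apply Subtype.ext; funext z; simp
      right_inv := by intro f; apply Subtype.ext; funext z; simp
      map_mul' := by intro f f'; rfl }
  map_one' := by
    apply MulEquiv.ext; intro f; apply Subtype.ext; funext z; simp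
  map_mul' := by
    intro g g'
    apply MulEquiv.ext; intro f; apply Subtype.ext; funext z
    simp [mul_smul]

/-- the alternating group of degree five -/
abbrev A5 := alternatingGroup (Fin 5)

/-- the restricted permutational wreath product of the alternating group of degree five with `G`
acting on the left cosets of `U` -/
abbrev Wr (G : Type) [Group G] (U : Subgroup G) :=
  FS (G ⧸ U) A5 ⋊[wact G (G ⧸ U) A5] G

/-- number of normal subgroups of finite index at most `n` -/
noncomputable def sN (G : Type) [Group G] (n : ℕ) : ℕ :=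
  {N : Subgroup G | N.Normal ∧ N.index ≠ 0 ∧ N.index ≤ n}.ncard

/-- number of characteristic subgroups of finite index at most `n` -/
noncomputable def sCh (G : Type) [Group G] (n : ℕ) : ℕ :=
  {N : Subgroup G | N.Characteristic ∧ N.index ≠ 0 ∧ N.index ≤ n}.ncard

/-- growth type -/
def GrowthType (g : ℕ → ℕ) (f : ℕ → ℝ) : Prop :=
  ∃ a b : ℝ, 0 < a ∧ 0 < b ∧ (∀ n, 1 ≤ n → (g n : ℝ) ≤ f n ^ a) ∧
    {n : ℕ | f n ^ b ≤ (g n : ℝ)}.Infinite

end Pool.Agent.N206.CG
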