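import Pool.Agent.N206.CG.Af

/-!
Project CG: assembly of the concrete local data.
-/

namespace Pool.Agent.N206.CG

open Classical Af

theorem t_LOC (h1 : S_F1) (h2a : S_F2a) (h2b : S_F2b) (h3 : S_F3) (h4r : S_F4r) (h4m : S_F4m)
    (h4f : S_F4f) (h5 : S_F5) (h6 : S_F6) (h7 : S_F7) : S_LOC := by
  obtain ⟨r1, r2, r3, r4, r5⟩ := h6
  haveI : ∀ n, Finite (EE (ZMod (pp n))) := r5
  refine ⟨{
    E := fun n => EE (ZMod (pp n))
    z := fun n => 0
    P := fun n => PP (ZMod (pp n))
    B := Aff ℤ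
    rho := rr
    X := fun n => XX (ZMod (pp n))
    J := fun n => sw (ZMod (pp n))
    jB := swA ℤ
    rho_range := r1
    rho_inj := r2
    B_perf := h5.1
    B_fg := h5.2.1
    B_inf := h5.2.2
    trans := r4
    z_not := fun n => (h1 (pp n) (pp_prime n) (pp_ge n)).1
    X_two := fun n => (h1 (pp n) (pp_prime n) (pp_ge n)).2.1
    dis := fun n => (h1 (pp n) (pp_prime n) (pp_ge n)).2.2.1
    one := fun n => (h1 (pp n) (pp_prime n) (pp_ge n)).2.2.2.1
    fix := fun n s hs => h3 (pp n) (pp_prime n) (pp_ge n) s hs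
    rig := fun n s hs h0 hX => h2b (pp n) (pp_prime n) (pp_ge n) s
      (h2a (pp n) (pp_prime n) (pp_ge n) s hs h0) hX
    J_sq := fun n => by
      apply Equiv.ext
      intro x
      exact (sw (ZMod (pp n))).left_inv x
    J_z := fun n => rfl
    J_X := fun n x => (h1 (pp n) (pp_prime n) (pp_ge n)).2.2.2.2.1 x
    J_rho := r3
    J_not := fun n => (h1 (pp n) (pp_prime n) (pp_ge n)).2.2.2.2.2
    res := fun n R hR hn => h4r (pp n) (pp_prime n) (pp_ge n) R hR hn
    many := fun n => by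
      obtain ⟨F, hF, hc, hN⟩ := h4m (pp n) (pp_prime n) (pp_ge n)
      refine ⟨F, hF, le_trans ?_ hc, hN⟩
      exact le_trans (Nat.pow_le_pow_right (by norm_num) (by omega)) (pp_le n)
    few := fun n => h4f (pp n) (pp_prime n) (pp_ge n)
    fin := h7 }⟩

end Pool.Agent.N206.CG
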