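import Pool.Agent.N206.CG.Asm
import Pool.Agent.N206.CG.LocAsm
import Pool.Agent.N341.CG.HR
import Pool.Agent.N494.CG.W3
import Pool.Agent.N476.CG.F1
import Pool.Agent.N499.CG.F2
import Pool.Agent.N415.CG.F2b
import Pool.Agent.N592.CG.F4
import Pool.Agent.N322.CG.F4r
import Pool.Agent.N681.CG.F4mf
import Pool.Agent.N704.CG.F5

/-!
Project CG: the main theorem.
-/

namespace Pool.Agent.N206.CG

open Af

theorem loc_of (h7 : S_F6 → S_F7) : S_LOC :=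
  t_LOC Pool.Agent.N476.CG.t_F1 Pool.Agent.N499.CG.t_F2a Pool.Agent.N415.CG.t_F2b
    Pool.Agent.N499.CG.t_F3 Pool.Agent.N322.CG.t_F4r Pool.Agent.N681.CG.t_F4m
    (Pool.Agent.N681.CG.t_F4f Pool.Agent.N592.CG.t_F4) Pool.Agent.N704.CG.t_F5
    Pool.Agent.N704.CG.t_F6 (h7 Pool.Agent.N704.CG.t_F6)

theorem final_of (h7 : S_F6 → S_F7) :
    ∃ (Γ : Type) (_ : Group Γ), Group.FG Γ ∧
      Finite (MulAut Γ ⧸ (MulAut.conj : Γ →* MulAut Γ).range) ∧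
      (∀ n, {N : Subgroup Γ | N.Normal ∧ N.index ≠ 0 ∧ N.index ≤ n}.Finite) ∧
      ¬ ∃ f : ℕ → ℝ, (∀ n, 0 ≤ f n) ∧ GrowthType (sCh Γ) f ∧ GrowthType (sN Γ) f := by
  obtain ⟨L⟩ := loc_of h7
  exact main_of L (fun S => Pool.Agent.N341.CG.t_HR S)
    (fun G _ U h => Pool.Agent.N494.CG.t_W3 G U h)

end Pool.Agent.N206.CG
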