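import Pool.Agent.N206.CG.Basic

/-!
Project CG: statements of the leaves about systems of spinal groups.
-/

namespace Pool.Agent.N206.CG

open Classical

/-! ### construction of the system (model: permutations of sequences) -/

section Model

variable (L : Loc)

/-- sequences of letters -/
abbrev Om := ∀ n, L.E n

/-- the spinal map of `b` with start `n`: if `m ≥ n` is the first place with a letter different
from the base letter, and this letter is in `X`, then `rho b` acts on the letter number `m + 1` -/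
noncomputable def psf (n : ℕ) (b : L.B) (w : Om L) : Om L :=
  if h : ∃ j, n ≤ j ∧ w j ≠ L.z j then
    if w (Nat.find h) ∈ L.X (Nat.find h) then
      Function.update w (Nat.find h + 1) (L.rho (Nat.find h + 1) b (w (Nat.find h + 1)))
    else w
  else w

/-- the group of level `n` -/
def Gn (n : ℕ) : Subgroup (Equiv.Perm (Om L)) :=
  Subgroup.closure
    ({g | ∃ r ∈ L.P n, ∀ w, g w = Function.update w n (r (w n))} ∪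
      {g | ∃ b, ∀ w, g w = psf L n b w})

/-- `d` has root `r` and sections `f` -/
def MkR (n : ℕ) (d : Equiv.Perm (Om L)) (r : Equiv.Perm (L.E n))
    (f : L.E n → Equiv.Perm (Om L)) : Prop :=
  ∀ w, d w = Function.update (f (w n) w) n (r (w n))

/-- permutations not touching and not depending on the letters before `m` -/
def Am (m : ℕ) : Set (Equiv.Perm (Om L)) :=
  {g | ∀ j < m, ∀ w y, g (Function.update w j y) = Function.update (g w) j y}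

def S_B1 : Prop :=
  (∀ n, ∃ f : L.P n →* Equiv.Perm (Om L),
    ∀ r w, f r w = Function.update w n ((r : Equiv.Perm (L.E n)) (w n))) ∧
  (∀ n, ∃ f : L.B →* Equiv.Perm (Om L), ∀ b w, f b w = psf L n b w)

def S_B2 : Prop :=
  (∀ n, ∀ g ∈ Gn L n, g ∈ Am L n) ∧
  ∀ n, ∀ g ∈ Gn L n, ∃ r ∈ L.P n, ∃ f : L.E n → Equiv.Perm (Om L),
    (∀ x, f x ∈ Gn L (n + 1)) ∧ MkR L n g r f

def S_B3 : Prop :=
  ∀ n, ∀ r ∈ L.P n, ∀ f : L.E n → Equiv.Perm (Om L), (∀ x, f x ∈ Gn L (n + 1)) →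
    ∃ g ∈ Gn L n, MkR L n g r f

def S_B4 : Prop :=
  ∃ j : Equiv.Perm (Om L), (∀ w n, j w n = L.J n (w n)) ∧
    (∀ n b w, j (psf L n b (j⁻¹ w)) = psf L n (L.jB b) w) ∧
    ∀ n g, g ∈ Gn L n ↔ j * g * j⁻¹ ∈ Gn L n

def S_SYS : Prop := Nonempty (Sys L)

end Model

variable {L : Loc} (S : Sys L)

/-! ### normal subgroups -/

def S_PERF : Prop := ∀ n, commutator (S.D n) = ⊤

def S_Z : Prop := ∀ n (d : S.D n), (∀ e, d * e = e * d) → d = 1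

def S_TOP : Prop := ∀ n (N : Subgroup (S.D n)), N.Normal → (∃ d ∈ N, S.root n d ≠ 1) →
  ∀ d, S.root n d = 1 → d ∈ N

def S_COMM : Prop := ∀ n (N : Subgroup (S.D n)), N.Normal → ∀ d ∈ N, d ∈ ⁅N, (⊤ : Subgroup (S.D n))⁆

def S_CLS : Prop := ∀ n (N : Subgroup (S.D n)), N.Normal → N ≠ ⊥ →
  ∃ l R, S.IsN l R n N ∧ R ≤ L.P l ∧ R ≠ ⊥ ∧ ∀ g ∈ L.P l, ∀ r ∈ R, g * r * g⁻¹ ∈ R

def S_NC : Prop := ∀ n (N M : Subgroup (S.D n)), N.Normal → M.Normal → N ≠ ⊥ → M ≠ ⊥ →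
  ∃ a ∈ N, ∃ b ∈ M, a * b ≠ b * a

def S_KER : Prop := ∀ n (α : MulAut (S.D n)) d, S.root n d = 1 → S.root n (α d) = 1

def S_FG : Prop := Group.FG (S.D 0)

/-! ### automorphisms -/

def S_D1 : Prop := ∀ n (α : MulAut (S.D n)), S.ADec n α (S.sg n α) (S.asc n α)

structure RulesA : Prop where
  sg_mul : ∀ n (α β : MulAut (S.D n)), S.sg n (α * β) = S.sg n α * S.sg n β
  asc_mul : ∀ n (α β : MulAut (S.D n)) x, S.asc n (α * β) x = S.asc n α (S.sg n β x) * S.asc n β x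
  sg_one : ∀ n, S.sg n 1 = 1
  asc_one : ∀ n x, S.asc n 1 x = 1
  sg_inv : ∀ n (α : MulAut (S.D n)), S.sg n α⁻¹ = (S.sg n α)⁻¹
  asc_inv : ∀ n (α : MulAut (S.D n)) x, S.asc n α⁻¹ (S.sg n α x) = (S.asc n α x)⁻¹
  sg_conj : ∀ n (e : S.D n), S.sg n (MulAut.conj e) = S.root n e
  asc_conj : ∀ n (e : S.D n) x, S.asc n (MulAut.conj e) x = MulAut.conj (S.sec n e x)
  conj_inj : ∀ n (d e : S.D n), MulAut.conj d = MulAut.conj e → d = e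
  root_ap : ∀ n (α : MulAut (S.D n)) d, S.root n (α d) = S.sg n α * S.root n d * (S.sg n α)⁻¹
  comm_ap : ∀ n (α : MulAut (S.D n)) d x, S.asc n α (S.root n d x) * MulAut.conj (S.sec n d x) =
    MulAut.conj (S.sec n (α d) (S.sg n α x)) * S.asc n α x
  sec_ap : ∀ n (α : MulAut (S.D n)) d x, S.root n d = 1 →
    S.sec n (α d) (S.sg n α x) = S.asc n α x (S.sec n d x)
  sg_P : ∀ n (α : MulAut (S.D n)) g, g ∈ L.P n ↔ S.sg n α * g * (S.sg n α)⁻¹ ∈ L.P n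

structure RulesB : Prop where
  asc_inn : ∀ n (α : MulAut (S.D n)) x y, ∃ d, S.asc n α y = MulAut.conj d * S.asc n α x
  sg_jay : ∀ n, S.sg n (S.jay n) = L.J n
  asc_jay : ∀ n x, S.asc n (S.jay n) x = S.jay (n + 1)
  inn : ∀ n (α : MulAut (S.D n)), S.sg n α ∈ L.P n → (∃ x e, S.asc n α x = MulAut.conj e) →
    ∃ d, α = MulAut.conj d
  triv : ∀ K : ∀ n, Set (MulAut (S.D n)),
    (∀ n, ∀ α ∈ K n, S.sg n α = 1 ∧ ∀ x, S.asc n α x ∈ K (n + 1)) → ∀ n, ∀ α ∈ K n, α = 1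

/-! ### lengths and contraction -/

def S_LEN : Prop := ∀ n, (∀ d : S.D n, ∃ k, d ∈ S.LL n k) ∧
  (∀ k k' d, k ≤ k' → d ∈ S.LL n k → d ∈ S.LL n k') ∧
  (∀ k k' d e, d ∈ S.LL n k → e ∈ S.LL n k' → d * e ∈ S.LL n (k + k')) ∧
  (∀ k d, d ∈ S.LL n k → d⁻¹ ∈ S.LL n k)

def S_SEC : Prop := ∀ n k, ∀ d ∈ S.LL n k, ∃ c : L.E n → ℕ,
  (∀ F : Finset (L.E n), ∑ x ∈ F, c x ≤ k) ∧ (∀ x, S.sec n d x ∈ S.LL (n + 1) (c x)) ∧
  (c (L.z n) = k → ∃ b, S.sec n d (L.z n) = S.sp (n + 1) b)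

def S_STAB : Prop := ∀ s : ∀ m, S.D m, (∀ m, s (m + 1) = S.sec m (s m) (L.z m)) →
  ∃ N b, ∀ m, N ≤ m → s m = S.sp m b

/-- `α` is the sequence of iterated sections of `α 0` along the base letters -/
def IsOrb (α : ∀ m, MulAut (S.D m)) : Prop := ∀ m, α (m + 1) = S.asc m (α m) (L.z m)

/-- normalised sequences -/
def IsNor (α : ∀ m, MulAut (S.D m)) : Prop := IsOrb S α ∧ (∀ m, S.sg m (α m) = 1) ∧
  ∀ m, ∀ x ∈ L.X m, S.sg (m + 1) (S.asc m (α m) x) = 1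

def S_C1 : Prop := ∀ α : ∀ m, MulAut (S.D m), IsNor S α →
  ∃ N, ∀ n, N ≤ n → ∀ b, α n (S.sp n b) = S.sp n b

def S_C2 : Prop := ∀ α : ∀ m, MulAut (S.D m), IsNor S α →
  (∃ N, ∀ n, N ≤ n → ∀ b, α n (S.sp n b) = S.sp n b) →
  ∃ N, ∀ n, N ≤ n → ∀ x, S.asc n (α n) x = α (n + 1)

def S_C3 : Prop := ∀ α : ∀ m, MulAut (S.D m), IsNor S α →
  (∃ N, ∀ n, N ≤ n → ∀ x, S.asc n (α n) x = α (n + 1)) → ∃ d, α 0 = MulAut.conj d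

def S_CONTR : Prop := ∀ α : ∀ m, MulAut (S.D m), IsNor S α → ∃ d, α 0 = MulAut.conj d

/-! ### the subgroup `Hs` -/

structure HRules : Prop where
  mem : ∀ h, h ∈ S.Hs ↔ ∃ b, S.HH 0 b h
  unf : ∀ n b h, S.HH n b h ↔ S.root n h = 1 ∧ S.HH (n + 1) b (S.sec n h (L.z n)) ∧
    ∀ x ∈ L.X n, S.root (n + 1) (S.sec n h x) = L.rho (n + 1) b
  one : ∀ n, S.HH n 1 1
  mul : ∀ n b b' h h', S.HH n b h → S.HH n b' h' → S.HH n (b * b') (h * h')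
  inv : ∀ n b h, S.HH n b h → S.HH n b⁻¹ h⁻¹
  sp : ∀ n b, S.HH n b (S.sp n b)
  uniq : ∀ n b b' h, S.HH n b h → S.HH n b' h → b = b'
  lam : ∀ n x d, x ≠ L.z n → x ∉ L.X n → S.HH n 1 (S.lam n x d)
  lamz : ∀ n b h, S.HH (n + 1) b h → ∃ h', S.HH n b h' ∧ S.sec n h' (L.z n) = h
  jay : ∀ n b h, S.HH n b h → S.HH n (L.jB b) (S.jay n h)
  jmem : ∀ h, h ∈ S.Hs ↔ S.jay 0 h ∈ S.Hs

def S_HCORE : Prop := ∀ N : Subgroup (S.D 0), N.Normal → N ≤ S.Hs → N = ⊥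

def S_HINF : Prop := Infinite (S.D 0 ⧸ S.Hs)

def S_G1 : Prop := ∀ α : ∀ m, MulAut (S.D m), IsOrb S α → (∀ h, h ∈ S.Hs ↔ α 0 h ∈ S.Hs) →
  ∀ m, (S.sg m (α m) = 1 ∨ S.sg m (α m) = L.J m) ∧
    ∀ h, (∃ b, S.HH m b h) ↔ ∃ b, S.HH m b (α m h)

def S_G2 : Prop := ∀ α : ∀ m, MulAut (S.D m), IsOrb S α → (∀ h, h ∈ S.Hs ↔ α 0 h ∈ S.Hs) →
  ∃ t : ∀ m, Equiv.Perm (L.E m),
    (∀ m, ∀ x ∈ L.X m, S.sg (m + 1) (S.asc m (α m) x) = t (m + 1)) ∧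
    (∀ m, ∃ g ∈ L.P (m + 1), t (m + 1) = g * S.sg (m + 1) (α (m + 1))) ∧
    ∃ f : L.B →* L.B, ∀ m b, L.rho (m + 1) (f b) = t (m + 1) * L.rho (m + 1) b * (t (m + 1))⁻¹

def S_HNORM : Prop := ∀ d, (∀ h, h ∈ S.Hs ↔ d * h * d⁻¹ ∈ S.Hs) → d ∈ S.Hs

def S_OUT : Prop := ∃ F : Set (MulAut (S.D 0)), F.Finite ∧
  (∀ u ∈ F, ∀ h, h ∈ S.Hs ↔ u h ∈ S.Hs) ∧
  ∀ α : MulAut (S.D 0), (∀ h, h ∈ S.Hs ↔ α h ∈ S.Hs) → ∃ u ∈ F, ∃ d, α = MulAut.conj d * u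

/-! ### the square of `D 0` -/

def S_AUTD : Prop := ∀ θ : MulAut (S.D 0 × S.D 0), ∃ α β : MulAut (S.D 0),
  (∀ x y, θ (x, y) = (α x, β y)) ∨ (∀ x y, θ (x, y) = (β y, α x))

/-- the subgroup of the square -/
abbrev UU : Subgroup (S.D 0 × S.D 0) := S.Hs.prod S.Hs

def S_OUT2 : Prop := ∃ F : Set (MulAut (S.D 0 × S.D 0)), F.Finite ∧
  (∀ u ∈ F, ∀ h, h ∈ UU S ↔ u h ∈ UU S) ∧
  ∀ α : MulAut (S.D 0 × S.D 0), (∀ h, h ∈ UU S ↔ α h ∈ UU S) → ∃ u ∈ F, ∃ d, α = MulAut.conj d * u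

def S_UCORE : Prop := (UU S).normalCore = ⊥

def S_UNORM : Prop := ∀ d, (∀ h, h ∈ UU S ↔ d * h * d⁻¹ ∈ UU S) → d ∈ UU S

/-- subgroups preserved by `jay 0` -/
def JInv (N : Subgroup (S.D 0)) : Prop := ∀ d ∈ N, S.jay 0 d ∈ N

/-! ### counting normal subgroups of `D 0` -/

structure NRules (I : ℕ → ℕ) : Prop where
  mono : StrictMono I
  zero : I 0 = 1
  idx : ∀ l R N, R ≤ L.P l → R ≠ ⊥ → (∀ g ∈ L.P l, ∀ r ∈ R, g * r * g⁻¹ ∈ R) →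
    S.IsN l R 0 N → N.index ≠ 0 ∧ I l ≤ N.index ∧ N.index ≤ I (l + 1)
  exi : ∀ l R, R ≤ L.P l → (∀ g ∈ L.P l, ∀ r ∈ R, g * r * g⁻¹ ∈ R) →
    ∃ N : Subgroup (S.D 0), N.Normal ∧ S.IsN l R 0 N
  uni : ∀ l R N N', S.IsN l R 0 N → S.IsN l R 0 N' → N = N'
  inj : ∀ l R R' N, R ≤ L.P l → R' ≤ L.P l → S.IsN l R 0 N → S.IsN l R' 0 N → R = R'
  jinv : ∀ l R N, R ≤ L.P l → S.IsN l R 0 N → JInv S N → ∀ r ∈ R, L.J l * r * (L.J l)⁻¹ ∈ R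

def S_NR : Prop := ∃ I : ℕ → ℕ, NRules S I

def S_CNT : Prop := ∃ I : ℕ → ℕ, StrictMono I ∧ I 0 = 1 ∧
  (∀ n, {N : Subgroup (S.D 0) | N.Normal ∧ N.index ≠ 0 ∧ N.index ≤ n}.Finite) ∧
  (∀ k n, I (k + 1) ≤ n →
    2 ^ k ≤ {N : Subgroup (S.D 0) | N.Normal ∧ N.index ≠ 0 ∧ N.index ≤ n}.ncard) ∧
  (∀ k n, n < I (k + 1) →
    {N : Subgroup (S.D 0) | N.Normal ∧ JInv S N ∧ N.index ≠ 0 ∧ N.index ≤ n}.ncard ≤ 4 * (k + 1))

/-- the group of the counterexample -/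
abbrev GG := Wr (S.D 0 × S.D 0) (UU S)

def S_CNTN : Prop := ∀ n,
  {N : Subgroup (S.D 0) | N.Normal ∧ N.index ≠ 0 ∧ N.index ≤ n}.ncard ≤ sN (GG S) n

def S_CNTC : Prop := ∀ n, sCh (GG S) n ≤
  {N : Subgroup (S.D 0) | N.Normal ∧ JInv S N ∧ N.index ≠ 0 ∧ N.index ≤ n}.ncard ^ 2

end Pool.Agent.N206.CG
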